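import Pool.Agent.Helper27.FS.Cub
import Pool.Agent.Helper58.IQ.S2c

/-!
# Modules of order 9 with a stable line, and functions on the other lines
-/

set_option autoImplicit false

open scoped NumberField Pointwise

namespace Pool.Agent.Helper27.P3

open Pool.Agent.Helper58.FS Pool.Agent.Helper58.IQ
open Pool.Agent.Helper27.FS (sumHom sumHom_apply)

variable {G : Type*} [Group G] {M : Type*} [AddCommGroup M]

/-- A sign as an element of `ZMod 3`. -/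
def sg (χ : G →* ℤˣ) (g : G) : ZMod 3 := (((χ g : ℤˣ) : ℤ) : ZMod 3)

theorem sg_sq (χ : G →* ℤˣ) (g : G) : sg χ g * sg χ g = 1 := by
  unfold sg
  rcases Int.units_eq_one_or (χ g) with h | h
  · rw [h]; decide
  · rw [h]; decide

theorem sg_mul (χ : G →* ℤˣ) (g h : G) : sg χ (g * h) = sg χ g * sg χ h := by
  unfold sg
  rw [map_mul, Units.val_mul, Int.cast_mul]

theorem sg_one (χ : G →* ℤˣ) : sg χ 1 = 1 := by
  unfold sg
  rw [map_one]
  decide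

theorem sg_inv (χ : G →* ℤˣ) (g : G) : sg χ g⁻¹ = sg χ g := by
  have h1 : sg χ g⁻¹ * sg χ g = 1 := by rw [← sg_mul, inv_mul_cancel, sg_one]
  have h2 := sg_sq χ g
  calc sg χ g⁻¹ = sg χ g⁻¹ * (sg χ g * sg χ g) := by rw [h2, mul_one]
    _ = sg χ g := by rw [← mul_assoc, h1, one_mul]

theorem chRep_sg (χ : G →* ℤˣ) (g : G) (x : ZMod 3) : chRep χ g x = sg χ g * x := by
  rw [chRep_apply, zsmul_eq_mul]
  rfl

variable {ρ : G →* AddMonoid.End M} {t w : M} {χ₁ χ₂ : G →* ℤˣ} {k : G → ℤ}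

theorem cocycle (hf : Form ρ t w χ₁ χ₂ k) (g h : G) :
    ((k (g * h) : ℤ) : ZMod 3) = ((k g : ℤ) : ZMod 3) + sg χ₁ g * sg χ₂ g * ((k h : ℤ) : ZMod 3) := by
  have h1 : ρ (g * h) w = ρ g (ρ h w) := by
    rw [map_mul]
    rfl
  rw [hf.gw, hf.gw, map_zsmul, map_sub, map_zsmul, hf.gw, hf.gt] at h1
  have h2 : (-(((χ₂ (g * h) : ℤˣ) : ℤ) * k (g * h)) + ((χ₂ h : ℤˣ) : ℤ) * ((χ₂ g : ℤˣ) : ℤ) * k g +
        ((χ₂ h : ℤˣ) : ℤ) * k h * ((χ₁ g : ℤˣ) : ℤ)) • t +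
      (((χ₂ (g * h) : ℤˣ) : ℤ) - ((χ₂ h : ℤˣ) : ℤ) * ((χ₂ g : ℤˣ) : ℤ)) • w = 0 := by
    rw [← sub_eq_zero] at h1
    rw [← h1]
    module
  have h3 := (ZMod.intCast_zmod_eq_zero_iff_dvd _ 3).2 (hf.ind _ _ h2).1
  push_cast at h3
  change -(sg χ₂ (g * h) * ((k (g * h) : ℤ) : ZMod 3)) + sg χ₂ h * sg χ₂ g * ((k g : ℤ) : ZMod 3) +
    sg χ₂ h * ((k h : ℤ) : ZMod 3) * sg χ₁ g = 0 at h3
  rw [sg_mul] at h3
  have e1 := sg_sq χ₂ g
  have e2 := sg_sq χ₂ h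
  linear_combination (-(sg χ₂ g * sg χ₂ h)) * h3 +
    (-(sg χ₂ h * sg χ₂ h) * ((k (g * h) : ℤ) : ZMod 3) + (sg χ₂ h * sg χ₂ h) * ((k g : ℤ) : ZMod 3)) * e1 +
    (-((k (g * h) : ℤ) : ZMod 3) + ((k g : ℤ) : ZMod 3) + sg χ₁ g * sg χ₂ g * ((k h : ℤ) : ZMod 3)) * e2

/-- The action on the numbers of the lines. -/
def pj (χ₁ χ₂ : G →* ℤˣ) (k : G → ℤ) (g : G) (j : ZMod 3) : ZMod 3 :=
  sg χ₁ g * sg χ₂ g * j + ((k g : ℤ) : ZMod 3)

theorem pj_zero (χ₁ χ₂ : G →* ℤˣ) (k : G → ℤ) (g : G) :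
    pj χ₁ χ₂ k g 0 = ((k g : ℤ) : ZMod 3) := by
  unfold pj
  rw [mul_zero, zero_add]

theorem k_one (hf : Form ρ t w χ₁ χ₂ k) : ((k 1 : ℤ) : ZMod 3) = 0 := by
  have h := cocycle hf 1 1
  rw [mul_one, sg_one, sg_one, mul_one, one_mul] at h
  linear_combination -h

theorem pj_one (hf : Form ρ t w χ₁ χ₂ k) (j : ZMod 3) : pj χ₁ χ₂ k 1 j = j := by
  unfold pj
  rw [k_one hf, sg_one, sg_one]
  ring

theorem pj_mul (hf : Form ρ t w χ₁ χ₂ k) (g h : G) (j : ZMod 3) :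
    pj χ₁ χ₂ k (g * h) j = pj χ₁ χ₂ k g (pj χ₁ χ₂ k h j) := by
  unfold pj
  rw [cocycle hf, sg_mul, sg_mul]
  ring

theorem pj_inv (hf : Form ρ t w χ₁ χ₂ k) (g : G) (j : ZMod 3) :
    pj χ₁ χ₂ k g⁻¹ j = sg χ₁ g * sg χ₂ g * (j - ((k g : ℤ) : ZMod 3)) := by
  have h1 : pj χ₁ χ₂ k g (pj χ₁ χ₂ k g⁻¹ j) = j := by
    rw [← pj_mul hf, mul_inv_cancel, pj_one hf]
  have e1 := sg_sq χ₁ g
  have e2 := sg_sq χ₂ g
  set x := pj χ₁ χ₂ k g⁻¹ j with hx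
  unfold pj at h1
  rw [← h1]
  linear_combination (-x * (sg χ₂ g * sg χ₂ g)) * e1 + (-x) * e2

/-- Functions on the lines, with the action twisted by `χ₁`. -/
noncomputable def rhoA (hf : Form ρ t w χ₁ χ₂ k) : G →* AddMonoid.End (ZMod 3 → ZMod 3) where
  toFun g :=
    { toFun := fun f j => chRep χ₁ g (f (pj χ₁ χ₂ k g⁻¹ j))
      map_zero' := by
        funext j
        simp
      map_add' := fun f f' => by
        funext j
        simp }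
  map_one' := AddMonoidHom.ext fun f => funext fun j => by
    change chRep χ₁ 1 (f (pj χ₁ χ₂ k 1⁻¹ j)) = f j
    rw [inv_one, pj_one hf, map_one]
    rfl
  map_mul' g h := AddMonoidHom.ext fun f => funext fun j => by
    change chRep χ₁ (g * h) (f (pj χ₁ χ₂ k (g * h)⁻¹ j)) =
      chRep χ₁ g (chRep χ₁ h (f (pj χ₁ χ₂ k h⁻¹ (pj χ₁ χ₂ k g⁻¹ j))))
    rw [mul_inv_rev, pj_mul hf, map_mul]
    rfl

theorem rhoA_apply (hf : Form ρ t w χ₁ χ₂ k) (g : G) (f : ZMod 3 → ZMod 3) (j : ZMod 3) :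
    rhoA hf g f j = chRep χ₁ g (f (pj χ₁ χ₂ k g⁻¹ j)) := rfl

theorem sumHom_rhoA (hf : Form ρ t w χ₁ χ₂ k) (g : G) (f : ZMod 3 → ZMod 3) :
    sumHom (rhoA hf g f) = chRep χ₁ g (sumHom f) := by
  let e : ZMod 3 ≃ ZMod 3 :=
    { toFun := pj χ₁ χ₂ k g⁻¹
      invFun := pj χ₁ χ₂ k g
      left_inv := fun j => by rw [← pj_mul hf, mul_inv_cancel, pj_one hf]
      right_inv := fun j => by rw [← pj_mul hf, inv_mul_cancel, pj_one hf] }
  change ∑ j, chRep χ₁ g (f (e j)) = chRep χ₁ g (∑ j, f j)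
  rw [map_sum]
  exact Equiv.sum_comp e (fun j => chRep χ₁ g (f j))

theorem ker_stable (hf : Form ρ t w χ₁ χ₂ k) (g : G) (f : ZMod 3 → ZMod 3)
    (hfk : f ∈ sumHom.ker) : rhoA hf g f ∈ sumHom.ker := by
  rw [AddMonoidHom.mem_ker] at hfk ⊢
  rw [sumHom_rhoA, hfk, map_zero]

theorem form_ker (hf : Form ρ t w χ₁ χ₂ k) :
    Form (subRep (rhoA hf) sumHom.ker (ker_stable hf))
      (⟨fun _ => 1, by rw [AddMonoidHom.mem_ker, sumHom_apply]; decide⟩ : sumHom.ker)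
      (⟨fun j => j, by rw [AddMonoidHom.mem_ker, sumHom_apply]; decide⟩ : sumHom.ker)
      χ₁ χ₂ k where
  t3 := by
    apply Subtype.ext
    funext j
    change (3 : ℕ) • (1 : ZMod 3) = 0
    decide
  w3 := by
    apply Subtype.ext
    funext j
    change (3 : ℕ) • (j : ZMod 3) = 0
    revert j
    decide
  span := by
    rintro ⟨f, hf⟩
    rw [AddMonoidHom.mem_ker, sumHom_apply] at hf
    refine ⟨(f 0).val, (f 1 - f 0).val, Subtype.ext (funext fun j => ?_)⟩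
    change f j = (((f 0).val : ℤ)) • (1 : ZMod 3) + (((f 1 - f 0).val : ℤ)) • j
    rw [zsmul_eq_mul, zsmul_eq_mul, Int.cast_natCast, Int.cast_natCast, ZMod.natCast_val,
      ZMod.natCast_val, ZMod.cast_id, ZMod.cast_id, mul_one]
    have h33 : (3 : ZMod 3) = 0 := by decide
    fin_cases j
    · change f 0 = f 0 + (f 1 - f 0) * 0
      ring
    · change f 1 = f 0 + (f 1 - f 0) * 1
      ring
    · change f 2 = f 0 + (f 1 - f 0) * 2
      linear_combination hf + (-f 1) * h33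
  ind := by
    intro m n h
    have h1 : ∀ j : ZMod 3, m • (1 : ZMod 3) + n • j = 0 := fun j =>
      congrFun (congrArg Subtype.val h) j
    have h2 := h1 0
    have h3 := h1 1
    rw [zsmul_eq_mul, zsmul_eq_mul] at h2 h3
    rw [mul_one, mul_zero, add_zero] at h2
    rw [mul_one, mul_one, h2, zero_add] at h3
    exact ⟨(ZMod.intCast_zmod_eq_zero_iff_dvd m 3).1 h2, (ZMod.intCast_zmod_eq_zero_iff_dvd n 3).1 h3⟩
  gt g := by
    apply Subtype.ext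
    funext j
    rfl
  gw g := by
    apply Subtype.ext
    funext j
    change chRep χ₁ g (pj χ₁ χ₂ k g⁻¹ j) = ((χ₂ g : ℤˣ) : ℤ) • (j - (k g) • (1 : ZMod 3))
    rw [pj_inv hf, chRep_sg, zsmul_eq_mul, zsmul_eq_mul, mul_one]
    have e1 := sg_sq χ₁ g
    change sg χ₁ g * (sg χ₁ g * sg χ₂ g * (j - ((k g : ℤ) : ZMod 3))) =
      sg χ₂ g * (j - ((k g : ℤ) : ZMod 3))
    linear_combination (sg χ₂ g * (j - ((k g : ℤ) : ZMod 3))) * e1

/-- The embedding of `M` in the functions. -/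
theorem exists_emb (hf : Form ρ t w χ₁ χ₂ k) : ∃ i : M →+ (ZMod 3 → ZMod 3),
    Function.Injective i ∧ (∀ g m, i (ρ g m) = rhoA hf g (i m)) ∧
    (∀ f, sumHom f = 0 ↔ ∃ m, i m = f) := by
  obtain ⟨e, he⟩ := hf.iso (form_ker hf)
  refine ⟨(sumHom.ker).subtype.comp e.toAddMonoidHom, (Subtype.val_injective).comp e.injective,
    fun g m => congrArg Subtype.val (he g m), fun f => ?_⟩
  rw [← AddMonoidHom.mem_ker]
  constructor
  · intro hm
    refine ⟨e.symm ⟨f, hm⟩, ?_⟩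
    change ((e (e.symm ⟨f, hm⟩) : sumHom.ker) : ZMod 3 → ZMod 3) = f
    rw [AddEquiv.apply_symm_apply]
  · rintro ⟨n, rfl⟩
    exact (e n).2

/-- Another generator of a complement. -/
theorem form_change (hf : Form ρ t w χ₁ χ₂ k) (m : ℤ) :
    Form ρ t (m • t + w) χ₁ χ₂
      (fun g => k g + m - ((χ₂ g : ℤˣ) : ℤ) * ((χ₁ g : ℤˣ) : ℤ) * m) where
  t3 := hf.t3
  w3 := by
    rw [smul_add, hf.w3, smul_comm, hf.t3, smul_zero, add_zero]
  span P := by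
    obtain ⟨a, b, h⟩ := hf.span P
    refine ⟨a - b * m, b, ?_⟩
    rw [h]
    module
  ind a b h := by
    have h1 := hf.ind (a + b * m) b (by rw [← h]; module)
    refine ⟨?_, h1.2⟩
    have h2 := h1.1
    rw [dvd_add_left (h1.2.mul_right m)] at h2
    exact h2
  gt := hf.gt
  gw g := by
    have h1 : (((χ₂ g : ℤˣ) : ℤ) * ((χ₂ g : ℤˣ) : ℤ)) = 1 := by
      rw [← Units.val_mul, Int.units_mul_self, Units.val_one]
    rw [map_add, map_zsmul, hf.gt, hf.gw]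
    have h2 : ((χ₂ g : ℤˣ) : ℤ) • (m • t + w -
        (k g + m - ((χ₂ g : ℤˣ) : ℤ) * ((χ₁ g : ℤˣ) : ℤ) * m) • t) =
        (((χ₂ g : ℤˣ) : ℤ) * ((χ₂ g : ℤˣ) : ℤ)) • (((χ₁ g : ℤˣ) : ℤ) * m) • t +
          ((χ₂ g : ℤˣ) : ℤ) • (w - k g • t) := by module
    rw [h2, h1]
    module

end Pool.Agent.Helper27.P3
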