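import Pool.Agent.Helper27.P3.Aff
import Pool.Agent.Helper27.FS.Cubic
import Pool.Agent.Helper58.P3.Base
import Pool.Agent.Helper58.P3.ExtH
import Pool.Agent.Helper3.FS.BridgeH2
import Pool.Agent.Helper58.IQ.FormW
import Pool.Agent.Helper69.FS.Shg

/-!
# Fine Selmer groups of a reducible module of order 9 and of a non-stable line
-/

set_option autoImplicit false

open scoped NumberField Pointwise

namespace Pool.Agent.Helper27.P3

open Pool.Agent.Helper58.FS Pool.Agent.Helper58.IQ Pool.Agent.Helper58.P3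
open Pool.Agent.Helper27.FS (sumHom sumHom_apply open_of_trivial)

variable {K : Type*} [Field K] [NumberField K] {M : Type*} [AddCommGroup M]
  {ρ : GK K →* AddMonoid.End M} {t w : M} {χ₁ χ₂ : GK K →* ℤˣ} {k : GK K → ℤ}

/-- The elements which stabilize the line of `w`. -/
def stabK (hf : Form ρ t w χ₁ χ₂ k) : Subgroup (GK K) where
  carrier := {g | ((k g : ℤ) : ZMod 3) = 0}
  one_mem' := k_one hf
  mul_mem' := by
    intro g h hg hh
    have hg' : ((k g : ℤ) : ZMod 3) = 0 := hg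
    have hh' : ((k h : ℤ) : ZMod 3) = 0 := hh
    change ((k (g * h) : ℤ) : ZMod 3) = 0
    rw [cocycle hf, hg', hh', mul_zero, add_zero]
  inv_mem' := by
    intro g hg
    have hg' : ((k g : ℤ) : ZMod 3) = 0 := hg
    change ((k g⁻¹ : ℤ) : ZMod 3) = 0
    rw [← pj_zero χ₁ χ₂ k, pj_inv hf, hg', sub_zero, mul_zero]

omit [NumberField K] in
theorem mem_stabK (hf : Form ρ t w χ₁ χ₂ k) (g : GK K) :
    g ∈ stabK hf ↔ ((k g : ℤ) : ZMod 3) = 0 := Iff.rfl

omit [NumberField K] in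
/-- On an open subgroup everything is trivial. -/
theorem exists_open (hf : Form ρ t w χ₁ χ₂ k) (hρ : ∀ x : M, IsOpen {g : GK K | ρ g x = x}) :
    ∃ V : Subgroup (GK K), IsOpen (V : Set (GK K)) ∧
      ∀ g ∈ V, χ₁ g = 1 ∧ χ₂ g = 1 ∧ ((k g : ℤ) : ZMod 3) = 0 := by
  have hfM : Finite M := by
    obtain ⟨e, he⟩ := hf.iso (form_ker hf)
    exact Finite.of_equiv _ e.symm.toEquiv
  obtain ⟨V, hV, hVM⟩ := Pool.Agent.Helper3.FS.exists_trivial ρ hρ
  refine ⟨V, hV, fun g hg => ?_⟩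
  have h1 := hVM g hg t
  have h2 := hVM g hg w
  rw [hf.gt] at h1
  rw [hf.gw] at h2
  have hχ : χ₁ g = 1 := by
    rcases Int.units_eq_one_or (χ₁ g) with h | h
    · exact h
    · exfalso
      rw [h] at h1
      have h4 := (hf.ind (-2) 0 (by
        simp only [Units.val_neg, Units.val_one, neg_smul, one_smul] at h1
        rw [zero_smul, add_zero, neg_smul, two_zsmul]
        nth_rw 1 [← h1]
        simp)).1
      norm_num at h4
  have h5 : (-(((χ₂ g : ℤˣ) : ℤ) * k g)) • t + (((χ₂ g : ℤˣ) : ℤ) - 1) • w = 0 := by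
    rw [sub_smul, one_smul, neg_smul, mul_smul]
    rw [smul_sub] at h2
    rw [← sub_eq_zero.2 h2]
    abel
  obtain ⟨h6, h7⟩ := hf.ind _ _ h5
  have hω : χ₂ g = 1 := by
    rcases Int.units_eq_one_or (χ₂ g) with h | h
    · exact h
    · exfalso
      rw [h] at h7
      norm_num at h7
  rw [hω] at h6
  refine ⟨hχ, hω, ?_⟩
  rw [ZMod.intCast_zmod_eq_zero_iff_dvd]
  simpa using h6

omit [NumberField K] in
theorem quo_iso (hf : Form ρ t w χ₁ χ₂ k) :
    Iso (quoRep (rhoA hf) sumHom.ker (ker_stable hf)) (chRep χ₁) := by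
  have hsurj : Function.Surjective sumHom := by
    intro x
    refine ⟨fun j => if j = 0 then x else 0, ?_⟩
    rw [sumHom_apply, if_pos rfl, if_neg (by decide), if_neg (by decide), add_zero,
      add_zero]
  refine ⟨QuotientAddGroup.quotientKerEquivOfSurjective sumHom hsurj, fun g m => ?_⟩
  induction m using QuotientAddGroup.induction_on with
  | H x => exact sumHom_rhoA hf g x

/-- Shapiro for a module of functions on the orbit of a line. -/
theorem shap (hf : Form ρ t w χ₁ χ₂ k) (hρ : ∀ x : M, IsOpen {g : GK K | ρ g x = x})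
    {N : Type*} [AddCommGroup N] [Finite N] (σ : GK K →* AddMonoid.End N)
    (hσ : ∀ x : N, IsOpen {g : GK K | σ g x = x}) (i : N →+ (ZMod 3 → ZMod 3))
    (hi : ∀ g n, i (σ g n) = rhoA hf g (i n))
    (hinj : ∀ n, (∀ g : GK K, i n ((k g : ℤ) : ZMod 3) = 0) → n = 0)
    (hsurj : ∀ f : ZMod 3 → ZMod 3, ∃ n, ∀ g : GK K, i n ((k g : ℤ) : ZMod 3) =
      f ((k g : ℤ) : ZMod 3)) :
    FinSel σ (Gcyc K 3) ↔ FinSel (chRep χ₁) (stabK hf ⊓ Gcyc K 3) := by
  obtain ⟨V, hV, hVt⟩ := exists_open hf hρ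
  have hχo : ∀ x : ZMod 3, IsOpen {g : GK K | chRep χ₁ g x = x} :=
    open_of_trivial (chRep χ₁) V hV (fun g hg x => by
      rw [chRep_apply, (hVt g hg).1]
      simp)
  have halg : Algebra.IsAlgebraic ℚ (Kb K) := Algebra.IsAlgebraic.trans ℚ K (Kb K)
  have hgal : IsGalois ℚ (Kb K) := Pool.Agent.Helper3.FS.isGalois_Q
  rw [Pool.Agent.Helper3.FS.fin_iff _ hσ, Pool.Agent.Helper3.FS.fin_iff (chRep χ₁) hχo]
  have hmap : (stabK hf ⊓ Gcyc K 3).map (toQ K) =
      (Gcyc K 3).map (toQ K) ⊓ (stabK hf).map (toQ K) := by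
    apply le_antisymm
    · rintro _ ⟨g, ⟨h1, h2⟩, rfl⟩
      exact ⟨⟨g, h2, rfl⟩, ⟨g, h1, rfl⟩⟩
    · rintro _ ⟨⟨g, hg, rfl⟩, ⟨g', hg', e⟩⟩
      have e' := toQ_inj K e
      subst e'
      exact ⟨g', ⟨hg', hg⟩, rfl⟩
  rw [hmap]
  have ha := Pool.Agent.Helper3.FS.act_ext σ hσ ⊤
  have hb := Pool.Agent.Helper3.FS.act_ext (chRep χ₁) hχo (stabK hf)
  refine Pool.Agent.Helper69.FS.shg (Prm (Kb K)) (H := (Gcyc K 3).map (toQ K)) (K₀ := (⊤ : Subgroup (GK K)).map (toQ K))
    (K₁ := (stabK hf).map (toQ K)) (Subgroup.map_mono le_top) (Subgroup.map_mono le_top) ?_ ?_ ha hb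
    ((Pi.evalAddMonoidHom (fun _ : ZMod 3 => ZMod 3) 0).comp i) ?_ ?_ ?_
  · rintro _ ⟨g, -, rfl⟩ _ ⟨h, hh, rfl⟩
    refine ⟨g * h * g⁻¹, ?_, by rw [map_mul, map_mul, map_inv]⟩
    have hn : (Gcyc K 3).Normal := by
      unfold Gcyc
      infer_instance
    exact hn.conj_mem h hh g
  · refine ⟨V.map (toQ K), Pool.Agent.Helper3.FS.isOpen_map V hV, ?_⟩
    rintro _ ⟨⟨g, hg, rfl⟩, -⟩
    exact ⟨g, (hVt g hg).2.2, rfl⟩
  · rintro _ ⟨g, hg, rfl⟩ n
    rw [extAct_toQ, extAct_toQ]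
    change i (σ g n) 0 = chRep χ₁ g (i n 0)
    have h1 : ((k g⁻¹ : ℤ) : ZMod 3) = 0 := (stabK hf).inv_mem hg
    rw [hi, rhoA_apply, pj_zero, h1]
  · intro n hn
    apply hinj
    intro g
    have h1 := hn (toQ K g⁻¹) ⟨g⁻¹, trivial, rfl⟩
    rw [extAct_toQ] at h1
    change i (σ g⁻¹ n) 0 = 0 at h1
    rw [hi, rhoA_apply, inv_inv, pj_zero, chRep_sg] at h1
    have h2 := sg_sq χ₁ g⁻¹
    linear_combination (sg χ₁ g⁻¹) * h1 - (i n ((k g : ℤ) : ZMod 3)) * h2
  · intro F hF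
    classical
    let c : ZMod 3 → GK K := fun j =>
      if h : ∃ g : GK K, ((k g : ℤ) : ZMod 3) = j then h.choose else 1
    have hc : ∀ g : GK K, ((k (c ((k g : ℤ) : ZMod 3)) : ℤ) : ZMod 3) = ((k g : ℤ) : ZMod 3) := by
      intro g
      have h : ∃ g' : GK K, ((k g' : ℤ) : ZMod 3) = ((k g : ℤ) : ZMod 3) := ⟨g, rfl⟩
      change ((k (if h : ∃ g' : GK K, ((k g' : ℤ) : ZMod 3) = ((k g : ℤ) : ZMod 3) then h.choose
        else 1) : ℤ) : ZMod 3) = _
      rw [dif_pos h]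
      exact h.choose_spec
    obtain ⟨n, hn⟩ := hsurj (fun j => chRep χ₁ (c j) (F (toQ K (c j))))
    refine ⟨n, ?_⟩
    rintro _ ⟨g, -, rfl⟩
    rw [← map_inv, extAct_toQ]
    change i (σ g⁻¹ n) 0 = _
    rw [hi, rhoA_apply, inv_inv, pj_zero, hn]
    set d := c ((k g : ℤ) : ZMod 3) with hd
    have hx : d⁻¹ * g ∈ stabK hf := by
      change ((k (d⁻¹ * g) : ℤ) : ZMod 3) = 0
      rw [← pj_zero χ₁ χ₂ k, pj_mul hf, pj_zero, ← hc g, ← pj_zero χ₁ χ₂ k d, ← pj_mul hf,
        inv_mul_cancel, pj_one hf]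
    have h1 := hF (toQ K d) ⟨d, trivial, rfl⟩ (toQ K (d⁻¹ * g)) ⟨_, hx, rfl⟩
    rw [← map_mul, mul_inv_cancel_left, ← map_inv, extAct_toQ] at h1
    rw [h1]
    have h2 : (chRep χ₁ g⁻¹) ((chRep χ₁ d) (F (toQ K d))) =
        chRep χ₁ (g⁻¹ * d) (F (toQ K d)) := by
      rw [map_mul]
      rfl
    rw [h2, mul_inv_rev, inv_inv]
    rfl

/-- The fine Selmer group of a reducible module of order 9 controls that of the stable line over
the field of definition of a non-stable line. -/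
theorem form_iff (hf : Form ρ t w χ₁ χ₂ k) (hρ : ∀ x : M, IsOpen {g : GK K | ρ g x = x})
    (hk : ∃ g, ((k g : ℤ) : ZMod 3) ≠ 0) :
    FinSel ρ (Gcyc K 3) ↔ FinSel (chRep χ₁) (stabK hf ⊓ Gcyc K 3) := by
  obtain ⟨V, hV, hVt⟩ := exists_open hf hρ
  have hfM : Finite M := by
    obtain ⟨e, he⟩ := hf.iso (form_ker hf)
    exact Finite.of_equiv _ e.symm.toEquiv
  obtain ⟨i, hi1, hi2, hi3⟩ := exists_emb hf
  obtain ⟨s, hs⟩ := hk
  by_cases hsur : ∀ j : ZMod 3, ∃ g : GK K, ((k g : ℤ) : ZMod 3) = j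
  · have hAo : ∀ f : ZMod 3 → ZMod 3, IsOpen {g : GK K | rhoA hf g f = f} :=
      open_of_trivial (rhoA hf) V hV (fun g hg f => by
        funext j
        have h1 : pj χ₁ χ₂ k g⁻¹ j = j := by
          rw [pj_inv hf, (hVt g hg).2.2, sub_zero]
          unfold sg
          rw [(hVt g hg).1, (hVt g hg).2.1]
          simp
        rw [rhoA_apply, h1, chRep_apply, (hVt g hg).1]
        simp)
    have hχo : ∀ x : ZMod 3, IsOpen {g : GK K | chRep χ₁ g x = x} :=
      open_of_trivial (chRep χ₁) V hV (fun g hg x => by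
        rw [chRep_apply, (hVt g hg).1]
        simp)
    have h3 : ∀ x : ZMod 3, 3 • x = 0 := by decide
    -- the line of `t`
    have hline : FinSel ρ (Gcyc K 3) → FinSel (chRep χ₁) (Gcyc K 3) := by
      intro h
      rw [Pool.Agent.Helper3.FS.fin_iff _ hχo]
      rw [Pool.Agent.Helper3.FS.fin_iff _ hρ] at h
      obtain ⟨e, he⟩ := hf.iso (form_ker hf)
      let c : ZMod 3 →+ sumHom.ker :=
        { toFun := fun x => ⟨fun _ => x, by
            rw [AddMonoidHom.mem_ker, sumHom_apply]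
            revert x
            decide⟩
          map_zero' := rfl
          map_add' := fun _ _ => rfl }
      have hcinj : Function.Injective c := fun x y hxy => congrFun (congrArg Subtype.val hxy) 0
      refine Pool.Agent.Helper99.FS.a1 (Prm (Kb K)) (e.symm.toAddMonoidHom.comp c)
        (e.symm.injective.comp hcinj) ?_ h
      rintro _ ⟨g, -, rfl⟩ n
      rw [extAct_toQ, extAct_toQ]
      change e.symm (c (chRep χ₁ g n)) = ρ g (e.symm (c n))
      rw [AddEquiv.symm_apply_eq, he, AddEquiv.apply_symm_apply]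
      rfl
    have hN : FinSel ρ (Gcyc K 3) → A3 (rhoA hf) := by
      intro h
      refine a3_ext (rhoA hf) hAo (fun f => funext fun j => h3 _) sumHom.ker (ker_stable hf) ?_ ?_
      · exact (a3_iso (hf.iso (form_ker hf))).1 h
      · exact (a3_iso (quo_iso hf)).2 (hline h)
    have hN' : A3 (rhoA hf) → FinSel ρ (Gcyc K 3) := by
      intro h'
      unfold A3 at h'
      rw [Pool.Agent.Helper3.FS.fin_iff _ hAo] at h'
      rw [Pool.Agent.Helper3.FS.fin_iff _ hρ]
      refine Pool.Agent.Helper99.FS.a1 (Prm (Kb K)) i hi1 ?_ h'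
      rintro _ ⟨g, -, rfl⟩ n
      rw [extAct_toQ, extAct_toQ]
      exact hi2 g n
    refine Iff.trans ⟨hN, hN'⟩
      (shap hf hρ (rhoA hf) hAo (AddMonoidHom.id _) (fun _ _ => rfl) ?_ ?_)
    · intro n hn
      funext j
      obtain ⟨g, hg⟩ := hsur j
      have := hn g
      rw [hg] at this
      exact this
    · intro f
      exact ⟨f, fun g => rfl⟩
  · push Not at hsur
    obtain ⟨a, ha⟩ := hsur
    have ha0 : (0 : ZMod 3) ≠ a := by
      have := ha 1
      rwa [k_one hf] at this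
    have hs0 := ha s
    refine shap hf hρ ρ hρ i hi2 ?_ ?_
    · intro n hn
      have h0 := hn 1
      rw [k_one hf] at h0
      have h1 := hn s
      have h2 := (hi3 (i n)).2 ⟨n, rfl⟩
      apply hi1
      rw [map_zero]
      rw [sumHom_apply] at h2
      have key : ∀ x : ZMod 3, x ≠ 0 → x = 1 ∨ x = 2 := by decide
      have e012 : i n 0 = 0 ∧ i n 1 = 0 ∧ i n 2 = 0 := by
        rcases key _ hs with e | e
        · rw [e] at h1
          refine ⟨h0, h1, ?_⟩
          rw [h0, h1, zero_add, zero_add] at h2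
          exact h2
        · rw [e] at h1
          refine ⟨h0, ?_, h1⟩
          rw [h0, h1, zero_add, add_zero] at h2
          exact h2
      funext j
      fin_cases j
      · exact e012.1
      · exact e012.2.1
      · exact e012.2.2
    · intro f
      obtain ⟨n, hn⟩ := (hi3 (fun j => if j = a then -(f 0 + f ((k s : ℤ) : ZMod 3)) else f j)).1
        (by
          rw [sumHom_apply]
          generalize ((k s : ℤ) : ZMod 3) = x at hs hs0
          have key : ∀ x y : ZMod 3, x ≠ 0 → 0 ≠ y → x ≠ y →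
            (x = 1 ∧ y = 2) ∨ (x = 2 ∧ y = 1) := by decide
          rcases key x a hs ha0 hs0 with ⟨rfl, rfl⟩ | ⟨rfl, rfl⟩
          · rw [if_neg (by decide), if_neg (by decide), if_pos rfl]
            ring
          · rw [if_neg (by decide), if_pos rfl, if_neg (by decide)]
            ring)
      refine ⟨n, fun g => ?_⟩
      rw [hn]
      exact if_neg (ha g)

end Pool.Agent.Helper27.P3
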