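import Pool.Agent.Helper27.P3.Conv
import Pool.Agent.Helper99.IS.Hilbert90

/-!
# Curves with a stable subgroup of order 3 and a subgroup of order 3 that is not stable
-/

set_option autoImplicit false

open scoped NumberField Pointwise

namespace Pool.Agent.Helper27.P3

open Pool.Agent.Helper58.FS Pool.Agent.Helper58.IQ Pool.Agent.Helper58.P3

theorem gen3 {A : Type*} [AddCommGroup A] (C : AddSubgroup A) (hC : Nat.card C = 3) {c : A}
    (hc : c ∈ C) (h0 : c ≠ 0) (x : A) (hx : x ∈ C) : ∃ j : ℤ, x = j • c := by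
  have hle : AddSubgroup.zmultiples c ≤ C := by
    rw [AddSubgroup.zmultiples_le]
    exact hc
  have hfin : Finite C := Nat.finite_of_card_ne_zero (by rw [hC]; norm_num)
  have hdvd : Nat.card (AddSubgroup.zmultiples c) ∣ 3 := by
    rw [← hC]
    exact AddSubgroup.card_dvd_of_le hle
  have hne : Nat.card (AddSubgroup.zmultiples c) ≠ 1 := by
    intro h
    rw [AddSubgroup.card_eq_one, AddSubgroup.zmultiples_eq_bot] at h
    exact h0 h
  have h3 : Nat.card (AddSubgroup.zmultiples c) = 3 :=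
    ((Nat.dvd_prime Nat.prime_three).1 hdvd).resolve_left hne
  have heq : AddSubgroup.zmultiples c = C :=
    AddSubgroup.eq_of_le_of_card_ge hle (by rw [hC, h3])
  rw [← heq] at hx
  obtain ⟨j, hj⟩ := AddSubgroup.mem_zmultiples_iff.1 hx
  exact ⟨j, hj.symm⟩

variable {K : Type*} [Field K] [NumberField K]

theorem red_iff (W : WeierstrassCurve K) (hW : W.Δ ≠ 0)
    (T C : AddSubgroup (Pts W)) (hs : Stab W T) (hT : T ≤ tor3 W) (hTc : Nat.card T = 3)
    (hC : C ≤ tor3 W) (hCc : Nat.card C = 3) (hn : ¬ Stab W C) :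
    FinSel (torRep W) (Gcyc K 3) ↔ FinSel (lineRep W T hs) (stabC W C ⊓ Gcyc K 3) := by
  obtain ⟨d, a, b, -, -, hiso, -, t, w, k, hf, hl⟩ := formW W hW T hs hT hTc
  -- a generator of `C` of the form `m t + w`
  have hnt : ∀ x : tor3 W, (x : Pts W) ∈ C → (x : Pts W) ∈ T → x = 0 := by
    intro x hxC hxT
    by_contra h0
    have h0' : (x : Pts W) ≠ 0 := fun h => h0 (Subtype.ext h)
    apply hn
    intro g P hP
    obtain ⟨j, hj⟩ := gen3 C hCc hxC h0' P hP
    have h1 : P ∈ T := by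
      rw [hj]
      exact T.zsmul_mem hxT j
    obtain ⟨j', hj'⟩ := gen3 T hTc hxT h0' _ (hs g P h1)
    rw [hj']
    exact C.zsmul_mem hxC j'
  obtain ⟨m, hm⟩ : ∃ m : ℤ, ((m • t + w : tor3 W) : Pts W) ∈ C := by
    have hex : ∃ x ∈ C, x ≠ 0 := by
      by_contra hno
      push Not at hno
      have : C = ⊥ := by
        rw [AddSubgroup.eq_bot_iff_forall]
        exact hno
      rw [this, AddSubgroup.card_bot] at hCc
      norm_num at hCc
    obtain ⟨x, hxC, hx0⟩ := hex
    obtain ⟨m, n, e⟩ := hf.span ⟨x, hC hxC⟩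
    have h3n : ¬ (3 : ℤ) ∣ n := by
      intro h3
      have h1 : (⟨x, hC hxC⟩ : tor3 W) = m • t := by
        rw [e, dvd3 hf.w3 h3, add_zero]
      have h2 := hnt ⟨x, hC hxC⟩ hxC ((hl _).2 ⟨m, h1⟩)
      exact hx0 (congrArg Subtype.val h2)
    have h12 : (3 : ℤ) ∣ n - 1 ∨ (3 : ℤ) ∣ -n - 1 := by omega
    rcases h12 with h | h
    · refine ⟨m, ?_⟩
      have h1 : m • t + w = (⟨x, hC hxC⟩ : tor3 W) := by
        rw [e]
        have h2 := dvd3 hf.w3 h
        rw [sub_smul, one_smul, sub_eq_zero] at h2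
        rw [h2]
      rw [h1]
      exact hxC
    · refine ⟨-m, ?_⟩
      have h1 : (-m) • t + w = -(⟨x, hC hxC⟩ : tor3 W) := by
        rw [e]
        have h2 := dvd3 hf.w3 h
        rw [sub_smul, one_smul, sub_eq_zero] at h2
        rw [neg_add, ← neg_smul, ← neg_smul, h2]
      rw [h1]
      exact C.neg_mem hxC
  have hf' := form_change hf m
  set c : tor3 W := m • t + w with hc
  have hc0 : (c : Pts W) ≠ 0 := by
    intro h0
    have h1 : c = 0 := Subtype.ext h0
    have h2 := (hf.ind m 1 (by rw [one_smul, ← hc, h1])).2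
    norm_num at h2
  -- the stabilizer
  have hfix : ∀ g : GK K, g ∈ stabK hf' → ∀ P ∈ C, ptsRep W g P ∈ C := by
    intro g hg P hP
    obtain ⟨j, rfl⟩ := gen3 C hCc hm hc0 P hP
    rw [map_zsmul]
    apply C.zsmul_mem
    have h1 := hf'.gw g
    have h2 : (3 : ℤ) ∣ (k g + m - ((qch (-3 * d) g : ℤˣ) : ℤ) * ((qch d g : ℤˣ) : ℤ) * m) :=
      (ZMod.intCast_zmod_eq_zero_iff_dvd _ 3).1 hg
    rw [dvd3 hf.t3 h2, sub_zero] at h1
    have h3 := congrArg Subtype.val h1
    change ptsRep W g (c : Pts W) = _ at h3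
    rw [h3]
    exact C.zsmul_mem hm _
  have hstab : ∀ g : GK K, g ∈ stabC W C ↔ g ∈ stabK hf' := by
    intro g
    constructor
    · intro hg
      have h1 : ptsRep W g (c : Pts W) ∈ C := (hg _).2 hm
      obtain ⟨j, hj⟩ := gen3 C hCc hm hc0 _ h1
      have h2 : torRep W g c = j • c := Subtype.ext hj
      rw [hf'.gw g] at h2
      have h3 := (hf'.ind (-(((qch (-3 * d) g : ℤˣ) : ℤ) *
        (k g + m - ((qch (-3 * d) g : ℤˣ) : ℤ) * ((qch d g : ℤˣ) : ℤ) * m)))
        (((qch (-3 * d) g : ℤˣ) : ℤ) - j) (by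
          rw [← sub_eq_zero] at h2
          rw [← h2]
          module)).1
      rw [mem_stabK]
      have h4 := (ZMod.intCast_zmod_eq_zero_iff_dvd _ 3).2 h3
      have h5 := sg_sq (qch (-3 * d)) g
      unfold sg at h5
      push_cast at h4 h5 ⊢
      linear_combination (-(((qch (-3 * d) g : ℤˣ) : ℤ) : ZMod 3)) * h4 -
        (((k g : ℤ) : ZMod 3) + (m : ZMod 3) - (((qch (-3 * d) g : ℤˣ) : ℤ) : ZMod 3) *
          (((qch d g : ℤˣ) : ℤ) : ZMod 3) * (m : ZMod 3)) * h5
    · intro hg P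
      constructor
      · intro h1
        have h2 := hfix g⁻¹ ((stabK hf').inv_mem hg) _ h1
        have h3 : ptsRep W g⁻¹ (ptsRep W g P) = P := by
          change (ptsRep W g⁻¹ * ptsRep W g) P = P
          rw [← map_mul, inv_mul_cancel, map_one]
          rfl
        rwa [h3] at h2
      · exact hfix g hg P
  have heq : stabC W C = stabK hf' := Subgroup.ext hstab
  have hk : ∃ g : GK K, (((k g + m - ((qch (-3 * d) g : ℤˣ) : ℤ) * ((qch d g : ℤˣ) : ℤ) * m : ℤ)) :
      ZMod 3) ≠ 0 := by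
    by_contra hno
    push Not at hno
    exact hn fun g P hP => hfix g (hno g) P hP
  rw [heq, form_iff hf' (Pool.Agent.Helper99.IS.cont_tor W) hk]
  exact (Pool.Agent.Helper99.FS.sel_iso hiso _).symm

end Pool.Agent.Helper27.P3
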